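import Mathlib.RingTheory.PiTensorProduct
import Pool.Agent.MP_187b32_an.PD.Small.Loc
import Pool.Agent.MP_187b32_an.Prof.Side

/-!
The outer part of the profile from `q = 1` in the dimensions `2, 3, 4, 5`, between two straight
barriers.
-/

set_option autoImplicit false

open Set

namespace Pool.Agent.MP_187b32_an.PD.SmallO

open Pool.Agent.MP_187b32_an.Prof (tube_ode Ball sc sc_pos Mem bpos Ex)

theorem outer_of {e r lam L h a s y1 : ℝ} (hlam : 0 < lam) (ha : 0 ≤ a) (hs : 0 ≤ s)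
    (hy : y1 ∈ Icc (-L) (-h))
    (c1 : ∀ τ ∈ Icc (0 : ℝ) (11 / 10), ∀ y ∈ Icc (-L - a * τ) (-h + s * τ),
      RepO lam e r (1 - τ) y)
    (c2 : ∀ τ ∈ Icc (0 : ℝ) (11 / 10),
      0 < s * dO e r (1 - τ) (-h + s * τ) - nO e r (1 - τ) (-h + s * τ))
    (c3 : ∀ τ ∈ Icc (0 : ℝ) (11 / 10),
      0 < a * dO e r (1 - τ) (-L - a * τ) + nO e r (1 - τ) (-L - a * τ)) :
    Outer e r 1 y1 := by
  have hle : ∀ τ ∈ Icc (0 : ℝ) (11 / 10), -L - a * τ ≤ -h + s * τ := fun τ hτ => by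
    have := mul_nonneg ha hτ.1
    have := mul_nonneg hs hτ.1
    linarith [hy.1, hy.2]
  set K : Set (ℝ × ℝ) := {p | p.1 ∈ Icc (0 : ℝ) (11 / 10) ∧ p.2 ∈ Icc (-L - a * p.1) (-h + s * p.1)}
    with hK
  have hKc : IsCompact K := by
    refine (isCompact_Icc.prod (isCompact_Icc (a := -L - a * (11 / 10))
      (b := -h + s * (11 / 10)))).of_isClosed_subset ?_ (fun p hp => ⟨hp.1, ?_, ?_⟩)
    · refine (isClosed_Icc.preimage continuous_fst).inter (IsClosed.inter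
        (isClosed_le (f := fun p : ℝ × ℝ => -L - a * p.1) (by fun_prop) continuous_snd)
        (isClosed_le (g := fun p : ℝ × ℝ => -h + s * p.1) continuous_snd (by fun_prop)))
    · nlinarith [hp.2.1, hp.1.2]
    · nlinarith [hp.2.2, hp.1.2]
  have hKv : Convex ℝ K := by
    intro p hp p' hp' u v hu hv huv
    have e1 : L = u * L + v * L := by rw [← add_mul, huv, one_mul]
    have e2 : h = u * h + v * h := by rw [← add_mul, huv, one_mul]
    refine ⟨convex_Icc _ _ hp.1 hp'.1 hu hv huv, ?_, ?_⟩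
    · simp only [Prod.fst_add, Prod.snd_add, Prod.smul_fst, Prod.smul_snd, smul_eq_mul]
      nlinarith [mul_le_mul_of_nonneg_left hp.2.1 hu, mul_le_mul_of_nonneg_left hp'.2.1 hv]
    · simp only [Prod.fst_add, Prod.snd_add, Prod.smul_fst, Prod.smul_snd, smul_eq_mul]
      nlinarith [mul_le_mul_of_nonneg_left hp.2.2 hu, mul_le_mul_of_nonneg_left hp'.2.2 hv]
  have hcd : ContDiffOn ℝ 1 (fun p : ℝ × ℝ => nO e r (1 - p.1) p.2 / dO e r (1 - p.1) p.2) K := by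
    refine ContDiffOn.div ?_ ?_ (fun p hp => (c1 _ hp.1 _ hp.2).1.ne')
    · unfold nO; fun_prop
    · unfold dO GG; fun_prop
  obtain ⟨M, hM⟩ := hcd.exists_lipschitzOnWith one_ne_zero hKv hKc
  obtain ⟨V, hV0, hV, -⟩ := tube_ode (P := Unit)
    (F := fun _ τ v => nO e r (1 - τ) v / dO e r (1 - τ) v)
    (lo := fun _ τ => -L - a * τ) (hi := fun _ τ => -h + s * τ) (lo' := fun _ _ => -a)
    (hi' := fun _ _ => s) (a := 0) (b := 11 / 10) (by norm_num) (by fun_prop) (by fun_prop)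
    (fun _ τ h => hle τ h)
    (hcd.continuousOn.comp (f := fun q : Unit × ℝ × ℝ => (q.2.1, q.2.2)) (by fun_prop)
      fun q hq => ⟨hq.1, hq.2⟩) M.2
    (fun _ τ h v hv w hw => by
      have := hM.dist_le_mul (τ, v) ⟨h, hv⟩ (τ, w) ⟨h, hw⟩
      rwa [Prod.dist_eq, dist_self, max_eq_right dist_nonneg, Real.dist_eq, Real.dist_eq] at this)
    (fun _ τ => by simpa using ((hasDerivAt_id τ).const_mul a).const_sub (-L))
    (fun _ τ => by simpa using ((hasDerivAt_id τ).const_mul s).const_add (-h))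
    (fun _ τ h => by
      have h' := Ico_subset_Icc_self h
      rw [div_lt_iff₀ (c1 τ h' _ ⟨hle τ h', le_rfl⟩).1]
      linarith [c2 τ h'])
    (fun _ τ h => by
      have h' := Ico_subset_Icc_self h
      rw [lt_div_iff₀ (c1 τ h' _ ⟨le_rfl, hle τ h'⟩).1]
      linarith [c3 τ h'])
    (v0 := fun _ => y1) continuous_const (fun _ => by simpa using hy)
  refine ⟨lam, V () (11 / 10), hlam, fun q => V () (1 - q), by norm_num, by simpa using hV0 (),
    fun q hq => ?_⟩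
  have hτ : 1 - q ∈ Icc (0 : ℝ) (11 / 10) := ⟨by linarith [hq.2], by linarith [hq.1]⟩
  obtain ⟨h1, h2⟩ := hV () _ hτ
  refine ⟨?_, by simpa using c1 _ hτ _ h2⟩
  have h3 : HasDerivWithinAt (fun q : ℝ => 1 - q) (-1) (Icc (-1 / 10) 1) q :=
    ((hasDerivAt_id q).const_sub 1).hasDerivWithinAt
  have := h1.comp q h3 fun x hx => ⟨by linarith [hx.2], by linarith [hx.1]⟩
  simpa [Function.comp_def, neg_div] using this

/-- A ball that contains the interval from `l / D` to `u / D`. -/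
def biv (l u : ℤ) (D : ℕ) : Ball :=
  ((l + u) * sc / (2 * D : ℕ), ((u - l) * sc / (2 * D : ℕ)).toNat + 2)

lemma mem_biv {l u : ℤ} {D : ℕ} (hD : 0 < D) {x : ℝ} (h1 : (l : ℝ) / D ≤ x) (h2 : x ≤ u / D) :
    Mem x (biv l u D) := by
  have hz : (0 : ℤ) < ((2 * D : ℕ) : ℤ) := by exact_mod_cast (by omega : 0 < 2 * D)
  have hr : (0 : ℝ) < D := by exact_mod_cast hD
  have hs := sc_pos
  rw [div_le_iff₀ hr] at h1
  rw [le_div_iff₀ hr] at h2
  have e2 : (((l + u) * sc / (2 * D : ℕ) : ℤ) : ℝ) * (2 * D) ≤ (l + u) * sc := by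
    exact_mod_cast Int.ediv_mul_le _ hz.ne'
  have e3 : ((l : ℝ) + u) * sc < ((((l + u) * sc / (2 * D : ℕ) : ℤ) : ℝ) + 1) * (2 * D) := by
    exact_mod_cast Int.lt_ediv_add_one_mul_self _ hz
  have e4 : ((u : ℝ) - l) * sc < ((((u - l) * sc / (2 * D : ℕ) : ℤ) : ℝ) + 1) * (2 * D) := by
    exact_mod_cast Int.lt_ediv_add_one_mul_self _ hz
  have e5 : (((u - l) * sc / (2 * D : ℕ) : ℤ) : ℝ) ≤
      ((((u - l) * sc / (2 * D : ℕ) : ℤ).toNat : ℕ) : ℝ) := by
    exact_mod_cast Int.self_le_toNat _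
  unfold Mem biv
  simp only [Nat.cast_add, Nat.cast_ofNat]
  generalize (((l + u) * sc / (2 * D : ℕ) : ℤ) : ℝ) = c at e2 e3
  generalize ((((u - l) * sc / (2 * D : ℕ) : ℤ).toNat : ℕ) : ℝ) = ρ at e5
  generalize (((u - l) * sc / (2 * D : ℕ) : ℤ) : ℝ) = ρ' at e4 e5
  have a1 := mul_le_mul_of_nonneg_right h1 hs.le
  have a2 := mul_le_mul_of_nonneg_right h2 hs.le
  have a3 := mul_le_mul_of_nonneg_right e5 hr.le
  rw [abs_le]
  constructor
  · refine le_of_mul_le_mul_right ?_ (by linarith : (0 : ℝ) < 2 * D)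
    nlinarith
  · refine le_of_mul_le_mul_right ?_ (by linarith : (0 : ℝ) < 2 * D)
    nlinarith

lemma cover {N : ℕ} (hN : 0 < N) {t : ℝ} (h0 : 0 ≤ t) (h1 : t ≤ 1) :
    ∃ i ∈ List.range N, Mem t (biv i (i + 1) N) := by
  have hr : (0 : ℝ) < N := by exact_mod_cast hN
  rcases eq_or_lt_of_le h1 with rfl | h1
  · obtain ⟨k, rfl⟩ : ∃ k, N = k + 1 := ⟨N - 1, by omega⟩
    refine ⟨k, by simp, mem_biv hN ?_ ?_⟩
    · rw [div_le_one hr]; push_cast; linarith
    · rw [one_le_div hr]; push_cast; linarith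
  · refine ⟨⌊t * N⌋₊, ?_, mem_biv hN ?_ ?_⟩
    · rw [List.mem_range, Nat.floor_lt (by positivity)]
      nlinarith
    · rw [div_le_iff₀ hr]
      exact_mod_cast Nat.floor_le (by positivity : 0 ≤ t * N)
    · rw [le_div_iff₀ hr]
      exact_mod_cast (Nat.lt_floor_add_one (t * N)).le

/-! The expressions; variables: `e, r, q, y, w, lam, a, s`. -/

def xG : Ex := (.int 1 + .var 4) * (.var 1 + .int 2 * .var 4) - .var 0 * (.var 4 * (.var 1 + .var 4))
def xd : Ex := xG - .var 0 * (.var 2 * .var 2)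
def xn : Ex := (.int 1 - .var 0 * .var 1) * (.var 3 * .var 3) +
  (.int 1 - .var 0) * (.var 4 * (.int 1 + .var 3 * .var 3)) + (.var 1 - .int 1)
def xs : Ex := (.int 1 + .var 4) * (.int 1 + .var 4) - .var 0 * (.var 2 * .var 2)
def xb : Ex := .var 2 * (.var 1 - .int 1 + (.int 1 - .var 0) * (.var 4 * (.var 1 + .var 4)))
def xa : Ex := .var 2 * .var 2 * (.var 1 - .int 1 + (.int 1 - .var 0) * .var 4) -
  (.var 1 - .int 1) * (.var 4 * (.int 1 + .var 4))
def xp : Ex := (.int 1 - .var 5) * xs + xa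
def xw : Ex := .int 1 + .var 4 - .var 5

/-- Data: the dimension, and `r`, `L`, `h`, `a`, `s`, `lam` in units of `1 / 10000`. -/
structure Dat where
  d : ℕ
  rl : ℤ
  ru : ℤ
  L : ℤ
  h : ℤ
  a : ℤ
  s : ℤ
  lam : ℤ

namespace Dat

variable (D : Dat)

/-- The first list of variables: `t, θ, L, h, a, s, 11 / 10`. -/
def env0 (t θ : Ball) : List Ball :=
  [t, θ, biv D.L D.L 10000, biv D.h D.h 10000, biv D.a D.a 10000, biv D.s D.s 10000, biv 11 11 10]

def yq : Ex := .int 1 - .var 6 * .var 0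
def yy : Ex := -(.var 2) - .var 4 * (.var 6 * .var 0) +
  .var 1 * (.var 2 - .var 3 + (.var 4 + .var 5) * (.var 6 * .var 0))

def env (t θ : Ball) : List Ball :=
  [biv 1 1 D.d, biv D.rl D.ru 10000, yq.evB (D.env0 t θ), yy.evB (D.env0 t θ),
    (yq * yy).evB (D.env0 t θ), biv D.lam D.lam 10000, biv D.a D.a 10000, biv D.s D.s 10000]

def ok1 (v : List Ball) : Bool :=
  bpos (xd.evB v) && bpos (xs.evB v) && bpos (xp.evB v) && bpos (xw.evB v) &&
    bpos ((.int 3 * (xp * xp) - .int 4 * (xb * xb) : Ex).evB v) &&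
    bpos ((.int 3 * ((xw * xs) * (xw * xs)) - .int 4 * (xb * xb) : Ex).evB v)

def ok (N M : ℕ) : Bool :=
  decide (0 < D.d) && decide (0 < D.lam) && decide (0 ≤ D.a) && decide (0 ≤ D.s) &&
  (List.range N).all (fun i =>
    (List.range M).all (fun j => ok1 (D.env (biv i (i + 1) N) (biv j (j + 1) M))) &&
    bpos ((.var 7 * xd - xn : Ex).evB (D.env (biv i (i + 1) N) (biv 1 1 1))) &&
    bpos ((.var 6 * xd + xn : Ex).evB (D.env (biv i (i + 1) N) (biv 0 0 1))))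

lemma mem_env (hd : 0 < D.d) {r t θ : ℝ} (h1 : (D.rl : ℝ) / 10000 ≤ r) (h2 : r ≤ D.ru / 10000)
    {T Θ : Ball} (ht : Mem t T) (hθ : Mem θ Θ) {q y : ℝ} (hq : q = 1 - 11 / 10 * t)
    (hy : y = -(D.L / 10000) - D.a / 10000 * (11 / 10 * t) +
      θ * (D.L / 10000 - D.h / 10000 + (D.a / 10000 + D.s / 10000) * (11 / 10 * t))) :
    List.Forall₂ Mem [1 / (D.d : ℝ), r, q, y, q * y, D.lam / 10000, D.a / 10000, D.s / 10000]
      (D.env T Θ) := by
  have m : ∀ n : ℤ, Mem ((n : ℝ) / 10000) (biv n n 10000) := fun n =>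
    mem_biv (by norm_num) (by norm_num) (by norm_num)
  have h0 : List.Forall₂ Mem [t, θ, D.L / 10000, D.h / 10000, D.a / 10000, D.s / 10000, 11 / 10]
      (D.env0 T Θ) :=
    .cons ht (.cons hθ (.cons (m _) (.cons (m _) (.cons (m _) (.cons (m _)
      (.cons (mem_biv (by norm_num) (by norm_num) (by norm_num)) .nil))))))
  have e1 : yq.ev [t, θ, D.L / 10000, D.h / 10000, D.a / 10000, D.s / 10000, 11 / 10] = q := by
    rw [hq]; simp [yq, Ex.ev, HSub.hSub, Sub.sub, HMul.hMul, Mul.mul]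
  have e2 : yy.ev [t, θ, D.L / 10000, D.h / 10000, D.a / 10000, D.s / 10000, 11 / 10] = y := by
    rw [hy]
    change -(D.L / 10000 : ℝ) + -(D.a / 10000 * (11 / 10 * t)) +
      θ * (D.L / 10000 + -(D.h / 10000) + (D.a / 10000 + D.s / 10000) * (11 / 10 * t)) = _
    ring
  refine .cons (mem_biv hd (by norm_num) (by norm_num)) (.cons (mem_biv (by norm_num)
    (by exact_mod_cast h1) (by exact_mod_cast h2)) (.cons (e1 ▸ Ex.mem h0 yq)
    (.cons (e2 ▸ Ex.mem h0 yy) (.cons ?_ (.cons (m _) (.cons (m _) (.cons (m _) .nil)))))))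
  rw [← e1, ← e2]
  exact Ex.mem h0 (yq * yy)

end Dat

section ev

variable (e r q y lam a s : ℝ)

lemma ev_d : xd.ev [e, r, q, y, q * y, lam, a, s] = dO e r q y := by
  change (((1 : ℤ) : ℝ) + q * y) * (r + ((2 : ℤ) : ℝ) * (q * y)) + -(e * (q * y * (r + q * y))) +
    -(e * (q * q)) = _
  unfold dO GG; push_cast; ring

lemma ev_n : xn.ev [e, r, q, y, q * y, lam, a, s] = nO e r q y := by
  change (((1 : ℤ) : ℝ) + -(e * r)) * (y * y) + (((1 : ℤ) : ℝ) + -e) *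
    (q * y * (((1 : ℤ) : ℝ) + y * y)) + (r + -((1 : ℤ) : ℝ)) = _
  unfold nO; push_cast; ring

lemma ev_s : xs.ev [e, r, q, y, q * y, lam, a, s] = sO e q y := by
  change (((1 : ℤ) : ℝ) + q * y) * (((1 : ℤ) : ℝ) + q * y) + -(e * (q * q)) = _
  unfold sO; push_cast; ring

lemma ev_b : xb.ev [e, r, q, y, q * y, lam, a, s] = q * bO e r q y := by
  change q * (r + -((1 : ℤ) : ℝ) + (((1 : ℤ) : ℝ) + -e) * (q * y * (r + q * y))) = _
  unfold bO; push_cast; ring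

lemma ev_a : xa.ev [e, r, q, y, q * y, lam, a, s] = aO e r q y := by
  change q * q * (r + -((1 : ℤ) : ℝ) + (((1 : ℤ) : ℝ) + -e) * (q * y)) +
    -((r + -((1 : ℤ) : ℝ)) * (q * y * (((1 : ℤ) : ℝ) + q * y))) = _
  unfold aO; push_cast; ring

lemma ev_p : xp.ev [e, r, q, y, q * y, lam, a, s] = (1 - lam) * sO e q y + aO e r q y := by
  rw [← ev_s e r q y lam a s, ← ev_a e r q y lam a s]
  change (((1 : ℤ) : ℝ) + -lam) * _ + _ = _
  push_cast; ring

lemma ev_w : xw.ev [e, r, q, y, q * y, lam, a, s] = 1 + q * y - lam := by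
  change ((1 : ℤ) : ℝ) + q * y + -lam = _
  push_cast; ring

end ev

lemma ok1_sound {e r q y lam a s : ℝ} {v : List Ball}
    (hm : List.Forall₂ Mem [e, r, q, y, q * y, lam, a, s] v) (h : Dat.ok1 v = true) :
    RepO lam e r q y := by
  simp only [Dat.ok1, Bool.and_eq_true] at h
  obtain ⟨⟨⟨⟨⟨h1, h2⟩, h3⟩, h4⟩, h5⟩, h6⟩ := h
  have a1 := (Ex.mem hm _).pos h1
  have a2 := (Ex.mem hm _).pos h2
  have a3 := (Ex.mem hm _).pos h3
  have a4 := (Ex.mem hm _).pos h4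
  have a5 : 0 < ((3 : ℤ) : ℝ) * (xp.ev _ * xp.ev _) + -(((4 : ℤ) : ℝ) * (xb.ev _ * xb.ev _)) :=
    (Ex.mem hm _).pos h5
  have a6 : 0 < ((3 : ℤ) : ℝ) * ((xw.ev _ * xs.ev _) * (xw.ev _ * xs.ev _)) +
      -(((4 : ℤ) : ℝ) * (xb.ev _ * xb.ev _)) := (Ex.mem hm _).pos h6
  rw [ev_d] at a1
  rw [ev_s] at a2
  rw [ev_p] at a3
  rw [ev_w] at a4
  rw [ev_p, ev_b] at a5
  rw [ev_w, ev_s, ev_b] at a6
  push_cast at a5 a6
  exact ⟨a1, a2, a3, by linarith, by nlinarith, by nlinarith⟩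

theorem Dat.outer (D : Dat) {N M : ℕ} (hN : 0 < N) (hM : 0 < M) (h : D.ok N M = true) {r y1 : ℝ}
    (h1 : (D.rl : ℝ) / 10000 ≤ r) (h2 : r ≤ D.ru / 10000)
    (h3 : -((D.L : ℝ) / 10000) ≤ y1) (h4 : y1 ≤ -((D.h : ℝ) / 10000)) :
    Outer (1 / D.d) r 1 y1 := by
  simp only [Dat.ok, Bool.and_eq_true, decide_eq_true_eq, List.all_eq_true] at h
  obtain ⟨⟨⟨⟨hd, hl⟩, ha⟩, hs⟩, h⟩ := h
  have ha' : (0 : ℝ) ≤ D.a / 10000 := by positivity
  have hs' : (0 : ℝ) ≤ D.s / 10000 := by positivity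
  have cov : ∀ τ ∈ Icc (0 : ℝ) (11 / 10), ∃ i ∈ List.range N,
      Mem (10 / 11 * τ) (biv i (i + 1) N) := fun τ hτ =>
    cover hN (by linarith [hτ.1]) (by linarith [hτ.2])
  refine outer_of (lam := D.lam / 10000) (L := D.L / 10000) (h := D.h / 10000)
    (a := D.a / 10000) (s := D.s / 10000) (by positivity) ha' hs' ⟨h3, h4⟩ (fun τ hτ y hy => ?_)
    (fun τ hτ => ?_) (fun τ hτ => ?_)
  · obtain ⟨i, hi, hm⟩ := cov τ hτ
    obtain ⟨θ, t0, t1, ht⟩ : ∃ θ : ℝ, 0 ≤ θ ∧ θ ≤ 1 ∧ y = -(D.L / 10000) - D.a / 10000 * τ +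
        θ * (D.L / 10000 - D.h / 10000 + (D.a / 10000 + D.s / 10000) * τ) := by
      obtain ⟨u, v, hu, hv, huv, rfl⟩ := (Convex.mem_Icc (hy.1.trans hy.2)).1 hy
      refine ⟨v, hv, by linarith, ?_⟩
      rw [show u = 1 - v by linarith]; ring
    obtain ⟨j, hj, hm'⟩ := cover hM t0 t1
    exact ok1_sound (D.mem_env hd h1 h2 hm hm' (by ring) (by rw [ht]; ring)) ((h i hi).1.1 j hj)
  · obtain ⟨i, hi, hm⟩ := cov τ hτ
    have hm' : Mem 1 (biv 1 1 1) := mem_biv (by norm_num) (by norm_num) (by norm_num)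
    have hv := D.mem_env hd h1 h2 hm hm' (q := 1 - τ)
      (y := -(D.h / 10000) + D.s / 10000 * τ) (by ring) (by ring)
    have a1 : 0 < (D.s / 10000 : ℝ) * xd.ev _ + -xn.ev _ := (Ex.mem hv _).pos (h i hi).1.2
    rw [ev_d, ev_n] at a1
    linarith
  · obtain ⟨i, hi, hm⟩ := cov τ hτ
    have hm' : Mem 0 (biv 0 0 1) := mem_biv (by norm_num) (by norm_num) (by norm_num)
    have hv := D.mem_env hd h1 h2 hm hm' (q := 1 - τ)
      (y := -(D.L / 10000) - D.a / 10000 * τ) (by ring) (by ring)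
    have a1 : 0 < (D.a / 10000 : ℝ) * xd.ev _ + xn.ev _ := (Ex.mem hv _).pos (h i hi).2
    rw [ev_d, ev_n] at a1
    exact a1

def d2 : Dat := ⟨2, 10360, 10380, 900, 700, 300, 1000, 1000⟩
def d3 : Dat := ⟨3, 11100, 11150, 1800, 1600, 300, 2000, 1000⟩
def d4 : Dat := ⟨4, 11550, 11650, 2100, 1900, 300, 2500, 1000⟩
def d5 : Dat := ⟨5, 11900, 11950, 2200, 2000, 300, 2500, 1000⟩

theorem outer2 {r y1 : ℝ} (h1 : 10360 / 10000 ≤ r) (h2 : r ≤ 10380 / 10000)
    (h3 : -9 / 100 ≤ y1) (h4 : y1 ≤ -7 / 100) : Outer (1 / 2) r 1 y1 := by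
  have := d2.outer (N := 22) (M := 4) (by norm_num) (by norm_num) (by decide +kernel)
    (r := r) (y1 := y1) (by simp only [d2]; push_cast; linarith)
    (by simp only [d2]; push_cast; linarith) (by simp only [d2]; push_cast; linarith)
    (by simp only [d2]; push_cast; linarith)
  simpa only [d2, Nat.cast_ofNat] using this

theorem outer3 {r y1 : ℝ} (h1 : 11100 / 10000 ≤ r) (h2 : r ≤ 11150 / 10000)
    (h3 : -18 / 100 ≤ y1) (h4 : y1 ≤ -16 / 100) : Outer (1 / 3) r 1 y1 := by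
  have := d3.outer (N := 22) (M := 4) (by norm_num) (by norm_num) (by decide +kernel)
    (r := r) (y1 := y1) (by simp only [d3]; push_cast; linarith)
    (by simp only [d3]; push_cast; linarith) (by simp only [d3]; push_cast; linarith)
    (by simp only [d3]; push_cast; linarith)
  simpa only [d3, Nat.cast_ofNat] using this

theorem outer4 {r y1 : ℝ} (h1 : 11550 / 10000 ≤ r) (h2 : r ≤ 11650 / 10000)
    (h3 : -21 / 100 ≤ y1) (h4 : y1 ≤ -19 / 100) : Outer (1 / 4) r 1 y1 := by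
  have := d4.outer (N := 22) (M := 4) (by norm_num) (by norm_num) (by decide +kernel)
    (r := r) (y1 := y1) (by simp only [d4]; push_cast; linarith)
    (by simp only [d4]; push_cast; linarith) (by simp only [d4]; push_cast; linarith)
    (by simp only [d4]; push_cast; linarith)
  simpa only [d4, Nat.cast_ofNat] using this

theorem outer5 {r y1 : ℝ} (h1 : 11900 / 10000 ≤ r) (h2 : r ≤ 11950 / 10000)
    (h3 : -22 / 100 ≤ y1) (h4 : y1 ≤ -20 / 100) : Outer (1 / 5) r 1 y1 := by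
  have := d5.outer (N := 22) (M := 4) (by norm_num) (by norm_num) (by decide +kernel)
    (r := r) (y1 := y1) (by simp only [d5]; push_cast; linarith)
    (by simp only [d5]; push_cast; linarith) (by simp only [d5]; push_cast; linarith)
    (by simp only [d5]; push_cast; linarith)
  simpa only [d5, Nat.cast_ofNat] using this

theorem both2 (h : ∃ r y1 : ℝ, 10369 / 10000 ≤ r ∧ r ≤ 10371 / 10000 ∧ -83 / 1000 ≤ y1 ∧
    y1 ≤ -80 / 1000 ∧ Inner (1 / 2) r 1 y1) : Both (1 / 2) := by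
  obtain ⟨r, y1, a1, a2, a3, a4, a5⟩ := h
  exact ⟨r, 1, y1, by linarith, by linarith, by norm_num, a5,
    outer2 (by linarith) (by linarith) (by linarith) (by linarith)⟩

theorem both3 (h : ∃ r y1 : ℝ, 11127 / 10000 ≤ r ∧ r ≤ 11129 / 10000 ∧ -171 / 1000 ≤ y1 ∧
    y1 ≤ -168 / 1000 ∧ Inner (1 / 3) r 1 y1) : Both (1 / 3) := by
  obtain ⟨r, y1, a1, a2, a3, a4, a5⟩ := h
  exact ⟨r, 1, y1, by linarith, by linarith, by norm_num, a5,
    outer3 (by linarith) (by linarith) (by linarith) (by linarith)⟩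

theorem both4 (h : ∃ r y1 : ℝ, 11599 / 10000 ≤ r ∧ r ≤ 11601 / 10000 ∧ -200 / 1000 ≤ y1 ∧
    y1 ≤ -196 / 1000 ∧ Inner (1 / 4) r 1 y1) : Both (1 / 4) := by
  obtain ⟨r, y1, a1, a2, a3, a4, a5⟩ := h
  exact ⟨r, 1, y1, by linarith, by linarith, by norm_num, a5,
    outer4 (by linarith) (by linarith) (by linarith) (by linarith)⟩

theorem both5 (h : ∃ r y1 : ℝ, 11923 / 10000 ≤ r ∧ r ≤ 11925 / 10000 ∧ -212 / 1000 ≤ y1 ∧
    y1 ≤ -208 / 1000 ∧ Inner (1 / 5) r 1 y1) : Both (1 / 5) := by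
  obtain ⟨r, y1, a1, a2, a3, a4, a5⟩ := h
  exact ⟨r, 1, y1, by linarith, by linarith, by norm_num, a5,
    outer5 (by linarith) (by linarith) (by linarith) (by linarith)⟩

end Pool.Agent.MP_187b32_an.PD.SmallO
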